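import Mathlib
import Pool.Agent.H.MP_63e8ca_gt.A

set_option autoImplicit false

namespace Pool.Agent.Results.MP_63e8ca_gt.CHNo

open Cardinal Pool.Agent.H.MP_63e8ca_gt

theorem result (hc : (𝔠 : Cardinal.{0}) = ℵ₁) :
    ∃ X : Set ((Ordinal.omega.{0} 1).ToType → Bool), HFCw X ∧ ∃ U : X → Set X,
      (∀ x, IsOpen (U x) ∧ x ∈ U x) ∧
        ∀ D : Set X, DiscreteTopology D → ⋃ x ∈ D, U x ≠ Set.univ :=
  H.MP_63e8ca_gt.main hc

end Pool.Agent.Results.MP_63e8ca_gt.CHNo
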